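import Pool.Agent.H30.LT.Targets

/-!
# MP_70ba79_ag, board `al_modules`: LIM, choice of the numbers `w`, `z`, `z'`
-/

set_option autoImplicit false

namespace Pool.Agent.H96.LT.LIM

open Pool.Agent.H30.LT Filter Topology

/-- `1 - u / 2 ≥ exp (- 0.5171 u)` for small `u` -/
theorem one_sub_ge (u : ℝ) (h0 : 0 ≤ u) (h1 : u ≤ 0.1276) :
    Real.exp (-(0.5171 * u)) ≤ 1 - u / 2 := by
  have ha : 0 ≤ 0.5171 * u := by positivity
  have h2 : Real.exp (-(0.5171 * u)) * (1 + 0.5171 * u + (0.5171 * u) ^ 2 / 2) ≤ 1 := by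
    have h3 := Real.quadratic_le_exp_of_nonneg ha
    calc Real.exp (-(0.5171 * u)) * (1 + 0.5171 * u + (0.5171 * u) ^ 2 / 2)
        ≤ Real.exp (-(0.5171 * u)) * Real.exp (0.5171 * u) :=
          mul_le_mul_of_nonneg_left h3 (Real.exp_pos _).le
      _ = 1 := by rw [← Real.exp_add]; simp
  have h4 : 0 < 1 + 0.5171 * u + (0.5171 * u) ^ 2 / 2 := by positivity
  have h5 : 1 ≤ (1 - u / 2) * (1 + 0.5171 * u + (0.5171 * u) ^ 2 / 2) := by
    nlinarith [mul_nonneg h0 h0, mul_nonneg (mul_nonneg h0 h0) h0,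
      mul_nonneg h0 (sub_nonneg.2 h1)]
  exact le_of_mul_le_mul_right (h2.trans h5) h4

theorem exp_big : (49 / 4 : ℝ) < Real.exp 2.5253 := by
  have h1 : (1.648 : ℝ) < Real.exp 0.5 := by
    have h := Real.exp_bound (x := 0.5) (by norm_num [abs_le]) (n := 6) (by norm_num)
    rw [abs_le] at h
    norm_num [Finset.sum_range_succ, Nat.factorial] at h ⊢
    linarith [h.1]
  have h2 : (1.0253 : ℝ) ≤ Real.exp 0.0253 := by
    have := Real.add_one_le_exp (0.0253 : ℝ)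
    linarith
  have h3 : Real.exp 2.5253 = Real.exp 0.5 ^ 5 * Real.exp 0.0253 := by
    rw [← Real.exp_nat_mul, ← Real.exp_add]
    norm_num
  have h4 : (1.648 : ℝ) ^ 5 ≤ Real.exp 0.5 ^ 5 := pow_le_pow_left₀ (by norm_num) h1.le 5
  rw [h3]
  calc (49 / 4 : ℝ) < 1.648 ^ 5 * 1.0253 := by norm_num
    _ ≤ Real.exp 0.5 ^ 5 * Real.exp 0.0253 := mul_le_mul h4 h2 (by norm_num) (by positivity)

theorem main_ineq (r D q : ℕ) (u : ℝ) (hr : 1 ≤ r) (hD : D ≤ 2 * r) (h0 : 0 ≤ u)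
    (h1 : u ≤ 0.1276) (hq : 5.2295 * (r : ℝ) ≤ u * q) :
    (7 / 2 : ℝ) ^ D * Real.exp (-(u * q)) < (1 - u / 2) ^ q := by
  have h2 := one_sub_ge u h0 h1
  have h3 : Real.exp (-(0.5171 * u)) ^ q ≤ (1 - u / 2) ^ q :=
    pow_le_pow_left₀ (Real.exp_pos _).le h2 q
  refine lt_of_lt_of_le ?_ h3
  rw [← Real.exp_nat_mul]
  have h4 : (7 / 2 : ℝ) ^ D ≤ (49 / 4) ^ r := by
    calc (7 / 2 : ℝ) ^ D ≤ (7 / 2) ^ (2 * r) := pow_le_pow_right₀ (by norm_num) hD
      _ = (49 / 4) ^ r := by rw [pow_mul]; norm_num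
  have h5 : (49 / 4 : ℝ) ^ r < Real.exp 2.5253 ^ r :=
    pow_lt_pow_left₀ exp_big (by norm_num) (by omega)
  have h6 : Real.exp 2.5253 ^ r ≤ Real.exp (0.4829 * (u * q)) := by
    rw [← Real.exp_nat_mul]
    apply Real.exp_le_exp.2
    have hr' : (0 : ℝ) ≤ r := Nat.cast_nonneg r
    nlinarith
  have h7 : (7 / 2 : ℝ) ^ D < Real.exp (0.4829 * (u * q)) := lt_of_le_of_lt h4 (h5.trans_le h6)
  calc (7 / 2 : ℝ) ^ D * Real.exp (-(u * q))
      < Real.exp (0.4829 * (u * q)) * Real.exp (-(u * q)) :=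
        mul_lt_mul_of_pos_right h7 (Real.exp_pos _)
    _ = Real.exp ((q : ℝ) * -(0.5171 * u)) := by
        rw [← Real.exp_add]
        apply Real.exp_eq_exp.2 
        ring

theorem tend (l : ℝ) (q c : ℕ) : Tendsto (fun w : ℕ => (1 - l ^ 2 * (1 + 1 / (w : ℝ)) / 2) ^ q *
    ((1 - l / w) * (1 - 2 / 7 * l / w)) ^ c) atTop (𝓝 ((1 - l ^ 2 / 2) ^ q)) := by
  have h0 : Tendsto (fun w : ℕ => (w : ℝ)) atTop atTop := tendsto_natCast_atTop_atTop
  have h1 : Tendsto (fun w : ℕ => 1 / (w : ℝ)) atTop (𝓝 0) :=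
    tendsto_const_nhds.div_atTop h0
  have h2 : Tendsto (fun w : ℕ => l / (w : ℝ)) atTop (𝓝 0) :=
    tendsto_const_nhds.div_atTop h0
  have h3 : Tendsto (fun w : ℕ => 2 / 7 * l / (w : ℝ)) atTop (𝓝 0) :=
    tendsto_const_nhds.div_atTop h0
  have h4 : Tendsto (fun w : ℕ => (1 - l ^ 2 * (1 + 1 / (w : ℝ)) / 2) ^ q *
    ((1 - l / w) * (1 - 2 / 7 * l / w)) ^ c) atTop
    (𝓝 ((1 - l ^ 2 * (1 + 0) / 2) ^ q * ((1 - 0) * (1 - 0)) ^ c)) :=
    (((((h1.const_add 1).const_mul (l ^ 2)).div_const 2).const_sub 1).pow q).mul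
      (((h2.const_sub 1).mul (h3.const_sub 1)).pow c)
  simpa using h4

theorem pf_LIM : T_LIM := by
  intro m r D q c hm hr hD hq
  have hm' : (2 : ℝ) ≤ m := by exact_mod_cast hm
  have hq' : 41 * (m : ℝ) ^ 2 * r ≤ ((m : ℝ) - 1) ^ 2 * q := by
    have h : ((m - 1 : ℕ) : ℝ) = (m : ℝ) - 1 := by
      rw [Nat.cast_sub (by omega)]
      simp
    rw [← h]
    exact_mod_cast hq
  obtain ⟨c1, hc1⟩ : ∃ c1 : ℝ, c1 = ((m : ℝ) - 1) / (2 * m) := ⟨_, rfl⟩
  have hm0 : (0 : ℝ) < m := by linarith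
  have hc1m : c1 * (2 * m) = m - 1 := by
    rw [hc1]
    field_simp
  have hc1l : 1 / 4 ≤ c1 := by
    rw [hc1, div_le_div_iff₀ (by norm_num) (by positivity)]
    linarith
  have hc1u : c1 < 1 / 2 := by
    rw [hc1, div_lt_div_iff₀ (by positivity) (by norm_num)]
    linarith
  obtain ⟨l, hl⟩ : ∃ l : ℝ, l = 5 * c1 / 7 := ⟨_, rfl⟩
  have hl0 : 0 < l := by rw [hl]; linarith
  have hl1 : l < 5 / 14 := by rw [hl]; linarith
  have hl2 : l ^ 2 ≤ 0.1276 := by nlinarith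
  have hlq : 5.2295 * (r : ℝ) ≤ l ^ 2 * q := by
    have h1 : l ^ 2 * q * m ^ 2 = 25 / 196 * (((m : ℝ) - 1) ^ 2 * q) := by
      rw [← hc1m, hl]
      ring
    have h2 : 5.2295 * (r : ℝ) * m ^ 2 ≤ l ^ 2 * q * m ^ 2 := by
      rw [h1]
      have h3 : (0 : ℝ) ≤ (m : ℝ) ^ 2 * r := by positivity
      nlinarith
    exact le_of_mul_le_mul_right h2 (by positivity)
  have hmain := main_ineq r D q (l ^ 2) hr hD (by positivity) hl2 hlq
  have hev := (tend l q c).eventually_const_lt hmain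
  obtain ⟨w, hw1, hw⟩ := ((eventually_ge_atTop 1).and hev).exists
  have hw0 : (1 : ℝ) ≤ w := by exact_mod_cast hw1
  have hwp : (0 : ℝ) < w := by linarith
  have hlw : 0 < l / w := by positivity
  have hlw1 : l / w ≤ l := div_le_self hl0.le hw0
  have hb : (((w * (w + 1) / 2 : ℕ) : ℝ)) = (w : ℝ) * (w + 1) / 2 := by
    rw [Nat.cast_div_charZero (even_iff_two_dvd.1 (Nat.even_mul_succ_self w))]
    push_cast
    ring
  have hbz : (w : ℝ) * (w + 1) / 2 * (1 - (1 - l / w)) ^ 2 = l ^ 2 * (1 + 1 / (w : ℝ)) / 2 := by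
    field_simp
    ring
  have h27 : 2 / 7 * l / (w : ℝ) = 2 / 7 * (l / w) := by ring
  refine ⟨w, 1 - l / w, 1 - 2 / 7 * l / w, hw1, by linarith, ?_, ?_, ?_, ?_⟩
  · rw [h27]
    linarith
  · rw [h27]
    linarith
  · rw [hb, hbz]
    have h1 : 1 / (w : ℝ) ≤ 1 := by
      rw [div_le_one hwp]
      exact hw0
    nlinarith
  · intro N hN
    have hN' : l * (5 / 7) * (1 / w) * N ≥ l ^ 2 * q := by
      have h1 : ((m : ℝ) - 1) * q * w ≤ 2 * m * N := by
        have h : ((m - 1 : ℕ) : ℝ) = (m : ℝ) - 1 := by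
          rw [Nat.cast_sub (by omega)]
          simp
        rw [← h]
        exact_mod_cast hN
      rw [← hc1m] at h1
      have h2 : c1 * q * w ≤ N := by
        have h3 : (2 * (m : ℝ)) * (c1 * q * w) ≤ (2 * m) * N := by linarith
        exact le_of_mul_le_mul_left h3 (by positivity)
      have h4 : c1 * q ≤ 1 / w * N := by
        rw [one_div, inv_mul_eq_div, le_div_iff₀ hwp]
        exact h2
      have h5 : l ^ 2 * q = l * (5 / 7) * (c1 * q) := by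
        have : l ^ 2 = l * (5 * c1 / 7) := by rw [← hl]; ring
        rw [this]
        ring
      rw [h5]
      have h6 : l * (5 / 7) * (1 / w) * N = l * (5 / 7) * (1 / w * N) := by ring
      rw [h6]
      exact mul_le_mul_of_nonneg_left h4 (by positivity)
    have hz'0 : 0 < 1 - 2 / 7 * l / w := by
      rw [h27]
      linarith
    have hz'1 : 1 - 2 / 7 * l / w ≤ 1 := by
      rw [h27]
      linarith
    have hz0 : 0 < 1 - l / w := by linarith
    have hfrac : (1 - l / w) / (1 - 2 / 7 * l / w) ≤ Real.exp (-(l * (5 / 7) * (1 / w))) := by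
      have h1 : (1 - l / w) / (1 - 2 / 7 * l / w) ≤ 1 - l * (5 / 7) * (1 / w) := by
        rw [div_le_iff₀ hz'0]
        have h3 : l * (5 / 7) * (1 / (w : ℝ)) = 5 / 7 * (l / w) := by ring
        rw [h3, h27]
        nlinarith [mul_pos hlw hlw]
      have h2 := Real.add_one_le_exp (-(l * (5 / 7) * (1 / (w : ℝ))))
      linarith
    have hfracN : ((1 - l / w) / (1 - 2 / 7 * l / w)) ^ N ≤ Real.exp (-(l ^ 2 * q)) := by
      calc ((1 - l / w) / (1 - 2 / 7 * l / w)) ^ N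
          ≤ Real.exp (-(l * (5 / 7) * (1 / w))) ^ N :=
            pow_le_pow_left₀ (div_pos hz0 hz'0).le hfrac N
        _ = Real.exp (-(l * (5 / 7) * (1 / w) * N)) := by
            rw [← Real.exp_nat_mul]
            apply Real.exp_eq_exp.2
            ring
        _ ≤ Real.exp (-(l ^ 2 * q)) := by
            apply Real.exp_le_exp.2
            linarith
    rw [hb, hbz]
    have e1 : 1 - (1 - l / (w : ℝ)) = 7 / 2 * (2 / 7 * l / w) := by ring
    have e2 : 1 - (1 - 2 / 7 * l / (w : ℝ)) = 2 / 7 * l / w := by ring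
    rw [e1, e2, mul_pow (7 / 2 : ℝ)]
    have hp : 0 < (2 / 7 * l / (w : ℝ)) ^ D := by positivity
    calc ((1 - l / w) / (1 - 2 / 7 * l / w)) ^ N * ((7 / 2) ^ D * (2 / 7 * l / w) ^ D)
        ≤ Real.exp (-(l ^ 2 * q)) * ((7 / 2) ^ D * (2 / 7 * l / w) ^ D) :=
          mul_le_mul_of_nonneg_right hfracN (by positivity)
      _ = ((7 / 2) ^ D * Real.exp (-(l ^ 2 * q))) * (2 / 7 * l / w) ^ D := by ring
      _ < ((1 - l ^ 2 * (1 + 1 / (w : ℝ)) / 2) ^ q *
          ((1 - l / w) * (1 - 2 / 7 * l / w)) ^ c) * (2 / 7 * l / w) ^ D :=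
          mul_lt_mul_of_pos_right hw hp

end Pool.Agent.H96.LT.LIM
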